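import Pool.Agent.Helper417.Sq.NotSpsc

/-!
# MP_63facb_an: squeezing function tending to 1 at a non-strongly-pseudoconvex point

`D = {(z,w) ∈ ℂ² : |z|² + |w|⁴ < 1}`, `p = (1,0)`, and the tangential sequence
`z_k = (x_k, t_k (1 - x_k²)^{1/4})` with `x_k = 1 - 1/(k+2)`, `t_k = 1 - 1/(k+2)³`.
An automorphism of `D` moves `z_k` to `(0, t_k)`, and the affine embedding `(z/√2, w)` of `D` into
the ball followed by the ball automorphism moving `(0,t_k)` to `0` gives `s_D(z_k) ≥ 1 - 1/(k+2)`.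

All definitions are in `Pool/Agent/Helper417/Sq/Defs.lean`.
-/

namespace Pool.Agent.Results.MP_63facb_an.EggAnswer

open Set Filter Topology
open Pool.Agent.Helper417.Sq

theorem result : ∃ (D : Set (Cn 2)) (p : Cn 2),
    AdmissibleA D p ∧ AdmissibleB D p ∧ AdmissibleC D p ∧
    (∃ z : ℕ → Cn 2, (∀ k, z k ∈ D) ∧ Tendsto z atTop (𝓝 p) ∧
      Tendsto (fun k => squeezing D (z k)) atTop (𝓝 1)) ∧
    ¬ StronglyPseudoconvexAt D p := by
  have hfr : ∀ q, q ≠ 0 → q ∈ frontier egg → dAngeloType rho q < ⊤ := by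
    intro q hq hqf
    refine lt_of_le_of_lt (dAngeloType_rho_le q ((mem_frontier_egg q hq).1 hqf)) ?_
    norm_num
  refine ⟨egg, pt, ?_, ?_, ?_, ⟨seqPt, seqPt_mem, tendsto_seqPt, tendsto_squeezing_seqPt⟩,
    not_stronglyPseudoconvexAt⟩
  · exact ⟨rfl, isBoundedDomain_egg, pt_mem_frontier, {q | q ≠ 0}, rho, pt_ne, isDefiningOn_rho,
      fun q _ _ t _ => levi_rho_nonneg q t, hfr pt pt_ne pt_mem_frontier⟩
  · refine ⟨le_rfl, isBoundedDomain_egg, pt_mem_frontier, {q | q ≠ 0}, rho, pt_ne,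
      isDefiningOn_rho, fun q hq hqf => ⟨fun t _ => levi_rho_nonneg q t, hfr q hq hqf⟩,
      ⊥, by simp, ?_, ?_⟩
    · intro t ht
      rw [Submodule.mem_bot] at ht
      subst ht
      constructor <;> simp
    · intro t ht ht'
      rw [Submodule.mem_bot] at ht
      exact absurd ht ht'
  · exact ⟨le_rfl, isBoundedDomain_egg, pt_mem_frontier, convex_egg, {q | q ≠ 0}, rho, pt_ne,
      isDefiningOn_rho, fun q hq hqf => hfr q hq hqf⟩

end Pool.Agent.Results.MP_63facb_an.EggAnswer
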